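import Mathlib

/-!
# Topological groups with a norm and a local contraction: gluing of approximations

`LCon G`: a norm `N` which defines the topology of the topological group `G`, and a contraction
`c t` of the ball `{N < R}` in `G` to `1`. The path `lam x y t = x * c t (x⁻¹ * y)` leads from `x`
(`t ≤ 0`) to `y` (`1 ≤ t`).
-/

set_option autoImplicit false
set_option linter.unusedSectionVars false

open Set Topology Filter

namespace Pool.Agent.H662.LC

/-- a norm and a local contraction on a topological group -/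
structure LCon (G : Type*) [Group G] [TopologicalSpace G] where
  N : G → ℝ
  c : ℝ → G → G
  R : ℝ
  R_pos : 0 < R
  N_one : N 1 = 0
  N_nonneg : ∀ g, 0 ≤ N g
  N_inv : ∀ g, N g⁻¹ = N g
  N_mul : ∀ g h, N (g * h) ≤ N g + N h
  nhds_basis : (𝓝 (1 : G)).HasBasis (fun ε : ℝ => 0 < ε) (fun ε => {g | N g < ε})
  c_cont : ∀ t g, N g < R → ContinuousAt (fun p : ℝ × G => c p.1 p.2) (t, g)
  c_zero : ∀ t g, t ≤ 0 → c t g = 1
  c_one : ∀ t g, 1 ≤ t → c t g = g
  modulus : ∀ ε > 0, ∃ δ > 0, ∀ g, N g < δ → ∀ t, N (c t g) < ε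

namespace LCon

variable {G : Type*} [Group G] [TopologicalSpace G] [IsTopologicalGroup G] (κ : LCon G)

/-- the left invariant distance -/
def dL (x y : G) : ℝ := κ.N (x⁻¹ * y)

theorem dL_self (x : G) : κ.dL x x = 0 := by simp [dL, κ.N_one]

theorem dL_nonneg (x y : G) : 0 ≤ κ.dL x y := κ.N_nonneg _

theorem dL_comm (x y : G) : κ.dL x y = κ.dL y x := by
  unfold dL
  rw [← κ.N_inv (x⁻¹ * y)]
  simp

theorem dL_triangle (x y z : G) : κ.dL x z ≤ κ.dL x y + κ.dL y z := by
  unfold dL
  have := κ.N_mul (x⁻¹ * y) (y⁻¹ * z)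
  simpa [mul_assoc] using this

theorem dL_triangle' (x y z : G) : κ.dL x z ≤ κ.dL y x + κ.dL y z := by
  have := κ.dL_triangle x y z
  rwa [κ.dL_comm x y] at this

theorem tendsto_iff {ι : Type*} {l : Filter ι} {u : ι → G} {g : G} :
    Tendsto u l (𝓝 g) ↔ ∀ ε > 0, ∀ᶠ i in l, κ.dL g (u i) < ε := by
  have h1 : Tendsto u l (𝓝 g) ↔ Tendsto (fun i => g⁻¹ * u i) l (𝓝 1) := by
    constructor
    · intro h
      have := h.const_mul g⁻¹
      simpa using this
    · intro h
      have := h.const_mul g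
      simpa using this
  rw [h1, κ.nhds_basis.tendsto_right_iff]
  rfl

theorem continuous_N : Continuous κ.N := by
  rw [continuous_iff_continuousAt]
  intro g
  rw [Metric.continuousAt_iff']
  intro ε hε
  have h1 : ∀ᶠ x in 𝓝 g, κ.dL g x < ε := κ.tendsto_iff.1 tendsto_id ε hε
  filter_upwards [h1] with x hx
  rw [Real.dist_eq, abs_sub_lt_iff]
  have h2 : κ.N x ≤ κ.N g + κ.dL g x := by
    have := κ.N_mul g (g⁻¹ * x)
    simpa [dL] using this
  have h3 : κ.N g ≤ κ.N x + κ.dL x g := by
    have := κ.N_mul x (x⁻¹ * g)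
    simpa [dL] using this
  rw [κ.dL_comm x g] at h3
  constructor <;> linarith

theorem continuous_dL : Continuous (fun p : G × G => κ.dL p.1 p.2) :=
  κ.continuous_N.comp (continuous_fst.inv.mul continuous_snd)

/-- the path from `x` to `y` -/
def lam (x y : G) (t : ℝ) : G := x * κ.c t (x⁻¹ * y)

theorem lam_of_le (x y : G) {t : ℝ} (h : t ≤ 0) : κ.lam x y t = x := by
  simp [lam, κ.c_zero t _ h]

theorem lam_of_ge (x y : G) {t : ℝ} (h : 1 ≤ t) : κ.lam x y t = y := by
  simp [lam, κ.c_one t _ h]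

theorem dL_lam_lt {δ ε : ℝ} (h : ∀ g, κ.N g < δ → ∀ t, κ.N (κ.c t g) < ε) {x y : G}
    (hxy : κ.dL x y < δ) (t : ℝ) : κ.dL x (κ.lam x y t) < ε := by
  unfold dL lam
  simpa using h (x⁻¹ * y) hxy t

theorem continuousAt_lam {x y : G} (t : ℝ) (h : κ.dL x y < κ.R) :
    ContinuousAt (fun p : G × G × ℝ => κ.lam p.1 p.2.1 p.2.2) (x, y, t) := by
  unfold lam
  have h1 : Continuous (fun p : G × G × ℝ => ((p.2.2, p.1⁻¹ * p.2.1) : ℝ × G)) := by fun_prop
  exact continuousAt_fst.mul
    ((κ.c_cont t (x⁻¹ * y) h).comp_of_eq h1.continuousAt rfl)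

theorem continuousAt_lam' {Y : Type*} [TopologicalSpace Y] {g h : Y → G} {t : Y → ℝ} {y : Y}
    (hg : ContinuousAt g y) (hh : ContinuousAt h y) (ht : ContinuousAt t y)
    (hd : κ.dL (g y) (h y) < κ.R) : ContinuousAt (fun z => κ.lam (g z) (h z) (t z)) y :=
  (κ.continuousAt_lam (t y) hd).comp_of_eq (hg.prodMk (hh.prodMk ht)) rfl

/-- a schedule of errors -/
structure Sched (E : ℕ → ℝ) : Prop where
  pos : ∀ k, 0 < E k
  half : ∀ k, 2 * E (k + 1) ≤ E k
  le_R : ∀ k, 2 * E (k + 1) ≤ κ.R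
  mod : ∀ k g, κ.N g < 2 * E (k + 1) → ∀ t, κ.N (κ.c t g) < E k / 2

theorem exists_sched {ε : ℝ} (hε : 0 < ε) : ∃ E : ℕ → ℝ, κ.Sched E ∧ E 0 = ε := by
  choose! δ hδ hδ' using κ.modulus
  set Δ : ℝ → ℝ := fun e => min e (min (δ (e / 2)) κ.R) / 2 with hΔ
  have hΔ0 : ∀ e, 0 < e → 0 < Δ e := fun e he => by
    have h1 := hδ (e / 2) (by positivity)
    have h2 := κ.R_pos
    simp only [hΔ]
    positivity
  set E : ℕ → ℝ := fun k => Nat.rec ε (fun _ e => Δ e) k with hE
  have hE0 : E 0 = ε := rfl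
  have hES : ∀ k, E (k + 1) = Δ (E k) := fun k => rfl
  have hpos : ∀ k, 0 < E k := by
    intro k
    induction k with
    | zero => exact hε
    | succ k ih => rw [hES]; exact hΔ0 _ ih
  have h2 : ∀ k, 2 * E (k + 1) = min (E k) (min (δ (E k / 2)) κ.R) := fun k => by
    rw [hES]
    simp only [hΔ]
    ring
  refine ⟨E, ⟨hpos, fun k => ?_, fun k => ?_, fun k g hg t => ?_⟩, hE0⟩
  · rw [h2]
    exact min_le_left _ _
  · rw [h2]
    exact (min_le_right _ _).trans (min_le_right _ _)
  · rw [h2] at hg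
    exact hδ' (E k / 2) (by have := hpos k; positivity) g
      (hg.trans_le ((min_le_right _ _).trans (min_le_left _ _))) t

/-- the chain of joins -/
def chain (g : ℕ → G) (t : ℕ → ℝ) : ℕ → ℕ → G
  | 0, _ => 1
  | r + 1, k => κ.lam (g k) (chain g t r (k + 1)) (t k)

theorem chain_stable (g : ℕ → G) (t : ℕ → ℝ) {m : ℕ} (hm : t m ≤ 0) :
    ∀ (r r' k : ℕ), k ≤ m → m < k + r → m < k + r' → κ.chain g t r k = κ.chain g t r' k := by
  intro r
  induction r with
  | zero => intro r' k h1 h2 _; omega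
  | succ r ih =>
    intro r' k h1 h2 h3
    cases r' with
    | zero => omega
    | succ r' =>
      show κ.lam _ _ _ = κ.lam _ _ _
      by_cases hk : k = m
      · subst hk
        rw [κ.lam_of_le _ _ hm, κ.lam_of_le _ _ hm]
      · rw [ih r' (k + 1) (by omega) (by omega) (by omega)]

theorem chain_dL {E : ℕ → ℝ} (hE : κ.Sched E) (g : ℕ → G) (t : ℕ → ℝ) (z : G)
    (h : ∀ k, t k < 1 → κ.dL (g k) z < E (k + 1)) {m : ℕ} (hm : t m ≤ 0) :
    ∀ (r k : ℕ), k ≤ m → m < k + r → κ.dL (κ.chain g t r k) z < E k := by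
  intro r
  induction r with
  | zero => intro k h1 h2; omega
  | succ r ih =>
    intro k h1 h2
    show κ.dL (κ.lam _ _ _) z < _
    have hEk := hE.half k
    have hEp := hE.pos (k + 1)
    by_cases hk : k = m
    · subst hk
      rw [κ.lam_of_le _ _ hm]
      have := h k (by linarith)
      linarith
    · have ih' := ih (k + 1) (by omega) (by omega)
      by_cases hk1 : t k < 1
      · have h3 := h k hk1
        have h5 := κ.dL_triangle (g k) z (κ.chain g t r (k + 1))
        rw [κ.dL_comm z] at h5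
        have h4 := κ.dL_lam_lt (hE.mod k) (show κ.dL (g k) (κ.chain g t r (k + 1)) <
          2 * E (k + 1) by linarith) (t k)
        have h6 := κ.dL_triangle' (κ.lam (g k) (κ.chain g t r (k + 1)) (t k)) (g k) z
        linarith
      · rw [κ.lam_of_ge _ _ (not_lt.1 hk1)]
        linarith

theorem chain_continuousAt {E : ℕ → ℝ} (hE : κ.Sched E) {Y : Type*} [TopologicalSpace Y]
    (g : ℕ → Y → G) (t : ℕ → Y → ℝ) (y : Y) (z : G) (ht : ∀ k, ContinuousAt (t k) y)
    (hg : ∀ k, (ContinuousAt (g k) y ∧ κ.dL (g k y) z < E (k + 1)) ∨ ∀ᶠ w in 𝓝 y, 1 ≤ t k w)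
    {m : ℕ} (hm : t m y < 0) :
    ∀ r k, k ≤ m → m < k + r →
      ContinuousAt (fun w => κ.chain (fun k => g k w) (fun k => t k w) r k) y := by
  have hd : ∀ k, t k y < 1 → κ.dL (g k y) z < E (k + 1) := by
    intro k hk
    rcases hg k with h | h
    · exact h.2
    · exact absurd h.self_of_nhds (not_le.2 hk)
  intro r
  induction r with
  | zero => intro k h1 h2; omega
  | succ r ih =>
    intro k h1 h2
    show ContinuousAt (fun w => κ.lam (g k w)
      (κ.chain (fun k => g k w) (fun k => t k w) r (k + 1)) (t k w)) y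
    by_cases hk : k = m
    · subst hk
      rcases hg k with h | h
      · refine h.1.congr ?_
        filter_upwards [(ht k).eventually_lt_const hm] with w hw
        rw [κ.lam_of_le _ _ hw.le]
      · exact absurd h.self_of_nhds (not_le.2 (hm.trans one_pos))
    · have ih' := ih (k + 1) (by omega) (by omega)
      rcases hg k with h | h
      · refine κ.continuousAt_lam' h.1 ih' (ht k) ?_
        have h3 := κ.chain_dL hE (fun k => g k y) (fun k => t k y) z hd hm.le r (k + 1)
          (by omega) (by omega)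
        have h5 := κ.dL_triangle (g k y) z
          (κ.chain (fun k => g k y) (fun k => t k y) r (k + 1))
        rw [κ.dL_comm z] at h5
        have h6 := hE.le_R k
        have h7 := h.2
        linarith
      · refine ih'.congr ?_
        filter_upwards [h] with w hw
        rw [κ.lam_of_ge _ _ hw]

end LCon

end Pool.Agent.H662.LC
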