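import Mathlib

/-!
# Absolute neighbourhood extensors and property C
-/

set_option autoImplicit false

open Set Topology

namespace Pool.Agent.H662.LC

universe u

/-- `X` is an absolute neighbourhood extensor for metrizable spaces: each continuous map from a
closed subset `A` of a metrizable space to `X` extends to a neighbourhood of `A` -/
def IsANE (X : Type u) [TopologicalSpace X] : Prop :=
  ∀ (Y : Type u) [TopologicalSpace Y] [TopologicalSpace.MetrizableSpace Y] (A : Set Y),
    IsClosed A → ∀ f : A → X, Continuous f → ∃ (O : Set Y) (hO : A ⊆ O) (F : O → X),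
      IsOpen O ∧ Continuous F ∧ ∀ a : A, F ⟨a, hO a.2⟩ = f a

/-- property C of Haver and of Addis and Gresham -/
def PropC (X : Type u) [TopologicalSpace X] : Prop :=
  ∀ U : ℕ → Set (Set X), (∀ i, ∀ u ∈ U i, IsOpen u) → (∀ i, ⋃₀ U i = univ) →
    ∃ V : ℕ → Set (Set X), (∀ i, ∀ v ∈ V i, IsOpen v ∧ ∃ u ∈ U i, v ⊆ u) ∧
      (∀ i, (V i).PairwiseDisjoint id) ∧ ⋃ i, ⋃₀ V i = univ

end Pool.Agent.H662.LC
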