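import Pool.Agent.H662.LC.Nice

/-!
# The countable sum theorem for locally contractible groups
-/

set_option autoImplicit false
set_option linter.unusedSectionVars false

open Set Topology Filter

namespace Pool.Agent.H662.LC

universe u

/-- `u` is the composition of two continuous maps through a space which has property C or is a
metrizable absolute neighbourhood extensor -/
def Fac {P G : Type u} [TopologicalSpace P] [TopologicalSpace G] (u : P → G) : Prop :=
  ∃ (X : Type u) (_ : TopologicalSpace X) (φ : P → X) (ψ : X → G), Continuous φ ∧ Continuous ψ ∧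
    (∀ p, u p = ψ (φ p)) ∧ (PropC X ∨ TopologicalSpace.MetrizableSpace X ∧ IsANE X)

/-- `u` extends to a continuous map on an open set of `Y` which contains `P` -/
def ExtOpen {Y G : Type u} [TopologicalSpace Y] [TopologicalSpace G] {A : Set Y} {P : Set A}
    (u : P → G) : Prop :=
  ∃ (O : Set Y) (F : Y → G), IsOpen O ∧ ContinuousOn F O ∧ ∀ p : P, (p : Y) ∈ O ∧ F p = u p

theorem ext_of_sum {G : Type u} [Group G] [TopologicalSpace G] [IsTopologicalGroup G]
    [TopologicalSpace.MetrizableSpace G] (hG : LocContr G) {Y : Type u} [TopologicalSpace Y]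
    [TopologicalSpace.MetrizableSpace Y] {A : Set Y} (hA : IsClosed A) {f : A → G}
    (hf : Continuous f)
    (h : ∀ U : ℕ → Set G, (∀ k, U k ∈ 𝓝 1) → ∃ (P : ℕ → Set A) (u : ∀ k, P k → G),
      ⋃ k, P k = univ ∧ ∀ k, (∀ p : P k, u k p * (f p)⁻¹ ∈ U k) ∧ (Fac (u k) ∨ ExtOpen (u k))) :
    ∃ (O : Set Y) (F : Y → G), IsOpen O ∧ A ⊆ O ∧ ContinuousOn F O ∧ ∀ a : A, F a = f a := by
  obtain ⟨κ⟩ := exists_lcon hG
  obtain ⟨O, F, hO, hAO, hF, hFf⟩ := κ.main hA (f := fun a => (f a)⁻¹) hf.inv (by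
    intro η hη
    obtain ⟨P, u, hP, hu⟩ := h (fun k => {g | κ.N g < η k}) (fun k =>
      κ.nhds_basis.mem_of_mem (hη k))
    refine ⟨P, fun k p => (u k p)⁻¹, hP, fun k => ⟨fun p => ?_, ?_⟩⟩
    · have h1 : κ.N (u k p * (f p)⁻¹) < η k := (hu k).1 p
      show κ.N ((u k p)⁻¹⁻¹ * (f p)⁻¹) < η k
      rwa [inv_inv]
    · rcases (hu k).2 with ⟨X, _, φ, ψ, hφ, hψ, hfac, hX⟩ | ⟨O, F, hO, hF, hpO⟩
      · have hj : IsInducing (fun p : P k => ((p : A) : Y)) :=
          IsInducing.subtypeVal.comp IsInducing.subtypeVal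
        rcases hX with hX | ⟨hXm, hX⟩
        · exact LCon.Nice.of_propC κ hj hX φ hφ (fun x => (ψ x)⁻¹) hψ.inv
            (fun p => congrArg (fun g => g⁻¹) (hfac p))
        · exact LCon.Nice.of_ane κ hj hX φ hφ (fun x => (ψ x)⁻¹) hψ.inv
            (fun p => congrArg (fun g => g⁻¹) (hfac p))
      · exact LCon.Nice.of_open κ O hO (fun p => (hpO p).1) (fun y => (F y)⁻¹) hF.inv
          (fun p => by simp only [(hpO p).2]))
  refine ⟨O, fun y => (F y)⁻¹, hO, hAO, hF.inv, fun a => ?_⟩
  show (F a)⁻¹ = f a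
  rw [hFf, inv_inv]

/-- maps to a contractible space which extend to a neighbourhood extend to the whole space -/
theorem ext_of_contractible {G : Type u} [TopologicalSpace G] [ContractibleSpace G] {Y : Type u}
    [TopologicalSpace Y] [TopologicalSpace.MetrizableSpace Y] {A : Set Y} (hA : IsClosed A)
    {f : A → G} {O : Set Y} {F : Y → G} (hO : IsOpen O) (hAO : A ⊆ O) (hF : ContinuousOn F O)
    (hFf : ∀ a : A, F a = f a) : ∃ F' : Y → G, Continuous F' ∧ ∀ a : A, F' a = f a := by
  classical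
  let := TopologicalSpace.metrizableSpaceMetric Y
  obtain ⟨g₀, ⟨H⟩⟩ := id_nullhomotopic G
  obtain ⟨O', hO', hAO', hO'O⟩ := normal_exists_closure_subset hA hO hAO
  obtain ⟨τ, hτ0, hτ1, hτ⟩ := exists_continuous_zero_one_of_isClosed hO'.isClosed_compl hA
    (Set.disjoint_left.2 fun x hx hx' => hx (hAO' hx'))
  set σ : Y → unitInterval := fun y => ⟨1 - τ y, by
    have := hτ y
    constructor <;> linarith [this.1, this.2]⟩ with hσ
  have hσc : Continuous σ := (continuous_const.sub τ.continuous).subtype_mk _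
  set F' : Y → G := fun y => if y ∈ O then H (σ y, F y) else g₀ with hF'
  refine ⟨F', ?_, fun a => ?_⟩
  · rw [continuous_iff_continuousAt]
    intro y
    by_cases hy : y ∈ O
    · have h1 : ContinuousAt (fun y => H (σ y, F y)) y :=
        H.continuous.continuousAt.comp
          (hσc.continuousAt.prodMk (hF.continuousAt (hO.mem_nhds hy)))
      refine h1.congr ?_
      filter_upwards [hO.mem_nhds hy] with z hz
      simp only [hF', hz, if_true]
    · have h2 : (closure O')ᶜ ∈ 𝓝 y :=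
        isClosed_closure.isOpen_compl.mem_nhds fun h => hy (hO'O h)
      refine (continuousAt_const (y := g₀)).congr ?_
      filter_upwards [h2] with z hz
      simp only [hF']
      split_ifs with h3
      · have h4 : z ∈ O'ᶜ := fun h => hz (subset_closure h)
        have h5 : σ z = 1 := by
          apply Subtype.ext
          show 1 - τ z = 1
          rw [hτ0 h4]
          simp
        rw [h5]
        exact (H.apply_one (F z)).symm
      · rfl
  · have h1 : (a : Y) ∈ O := hAO a.2
    have h2 : σ a = 0 := by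
      apply Subtype.ext
      show 1 - τ a = 0
      rw [hτ1 a.2]
      simp
    simp only [hF', h1, if_true]
    rw [h2, hFf]
    exact H.apply_zero (f a)

theorem ane_of_sum {G : Type u} [Group G] [TopologicalSpace G] [IsTopologicalGroup G]
    [TopologicalSpace.MetrizableSpace G] (hG : LocContr G)
    (h : ∀ U : ℕ → Set G, (∀ k, U k ∈ 𝓝 1) → ∃ (T : ℕ → Set G) (u : ∀ k, T k → G),
      ⋃ k, T k = univ ∧ ∀ k, (∀ p : T k, u k p * (p : G)⁻¹ ∈ U k) ∧ Fac (u k)) : IsANE G := by
  intro Y _ _ A hA f hf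
  obtain ⟨O, F, hO, hAO, hF, hFf⟩ := ext_of_sum hG hA hf (by
    intro U hU
    obtain ⟨T, u, hT, hu⟩ := h U hU
    refine ⟨fun k => f ⁻¹' (T k), fun k p => u k ⟨f p, p.2⟩, ?_, fun k => ⟨fun p => ?_,
      Or.inl ?_⟩⟩
    · rw [← preimage_iUnion, hT, preimage_univ]
    · exact (hu k).1 ⟨f p, p.2⟩
    · obtain ⟨X, hX1, φ, ψ, hφ, hψ, hfac, hX⟩ := (hu k).2
      refine ⟨X, hX1, fun p => φ ⟨f p, p.2⟩, ψ, ?_, hψ, fun p => hfac _, hX⟩
      exact hφ.comp ((hf.comp continuous_subtype_val).subtype_mk _))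
  refine ⟨O, hAO, fun y => F y, hO, hF.comp_continuous continuous_subtype_val (fun y => y.2),
    fun a => hFf a⟩

theorem ane_of_iUnion {G : Type u} [Group G] [TopologicalSpace G] [IsTopologicalGroup G]
    [TopologicalSpace.MetrizableSpace G] (hG : LocContr G) (T : ℕ → Set G)
    (hT : ⋃ k, T k = univ) (h : ∀ k, PropC (T k) ∨ IsANE (T k)) : IsANE G := by
  refine ane_of_sum hG fun U hU => ⟨T, fun k p => p, hT, fun k => ⟨fun p => ?_, ?_⟩⟩
  · rw [mul_inv_cancel]
    exact mem_of_mem_nhds (hU k)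
  · refine ⟨T k, inferInstance, id, Subtype.val, continuous_id, continuous_subtype_val,
      fun p => rfl, ?_⟩
    rcases h k with h1 | h1
    · exact Or.inl h1
    · exact Or.inr ⟨inferInstance, h1⟩

/-- the approximation criterion -/
theorem ane_iff {G : Type u} [Group G] [TopologicalSpace G] [IsTopologicalGroup G]
    [TopologicalSpace.MetrizableSpace G] (hG : LocContr G) :
    IsANE G ↔ ∀ U : ℕ → Set G, (∀ k, U k ∈ 𝓝 1) → ∃ (T : ℕ → Set G) (u : ∀ k, T k → G),
      ⋃ k, T k = univ ∧ ∀ k, (∀ p : T k, u k p * (p : G)⁻¹ ∈ U k) ∧ Fac (u k) := by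
  refine ⟨fun h U hU => ?_, ane_of_sum hG⟩
  refine ⟨fun _ => univ, fun k p => p, iUnion_const _, fun k => ⟨fun p => ?_, ?_⟩⟩
  · rw [mul_inv_cancel]
    exact mem_of_mem_nhds (hU k)
  · exact ⟨G, inferInstance, Subtype.val, id, continuous_subtype_val, continuous_id,
      fun p => rfl, Or.inr ⟨inferInstance, h⟩⟩

end Pool.Agent.H662.LC
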