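import Pool.Agent.H662.LC.Abs

/-!
# Local gluing of countably many approximations defined on open sets
-/

set_option autoImplicit false
set_option linter.unusedSectionVars false

open Set Topology Filter

namespace Pool.Agent.H662.LC

namespace LCon

variable {G : Type*} [Group G] [TopologicalSpace G] [IsTopologicalGroup G] (κ : LCon G)

/-- gluing on the whole space -/
theorem glue_univ {E : ℕ → ℝ} (hE : κ.Sched E) {Y : Type*} [TopologicalSpace Y] [NormalSpace Y]
    [ParacompactSpace Y]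
    (Q : ℕ → Set Y) (hQ : ∀ k, IsOpen (Q k)) (hcov : ⋃ k, Q k = univ) (g : ℕ → Y → G)
    (hg : ∀ k, ContinuousOn (g k) (Q k)) :
    ∃ (S : Set Y) (J : Y → G), IsOpen S ∧ ContinuousOn J S ∧
      ∀ y z, (∀ k, y ∈ Q k → κ.dL (g k y) z < E (k + 1)) → y ∈ S ∧ κ.dL (J y) z < E 0 := by
  classical
  obtain ⟨p, hp⟩ := PartitionOfUnity.exists_isSubordinate (X := Y) (s := univ) isClosed_univ Q hQ
    (by rw [hcov])
  set t : ℕ → Y → ℝ := fun k y => 1 - 2 ^ (k + 2) * p k y with ht
  have htc : ∀ k, Continuous (t k) := fun k => by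
    have := (p k).continuous
    fun_prop
  have ht1 : ∀ k y, y ∉ tsupport (p k) → ∀ᶠ z in 𝓝 y, 1 ≤ t k z := by
    intro k y h1
    have h2 : ∀ᶠ z in 𝓝 y, p k z = 0 := by
      have := notMem_tsupport_iff_eventuallyEq.1 h1
      filter_upwards [this] with z hz
      simpa using hz
    filter_upwards [h2] with z hz
    simp [ht, hz]
  have hlt : ∀ k y, t k y < 1 → y ∈ tsupport (p k) := by
    intro k y h
    by_contra hy
    have := (ht1 k y hy).self_of_nhds
    linarith
  -- somewhere `t` is negative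
  have hneg : ∀ y, ∃ m, t m y < 0 := by
    intro y
    by_contra hcon
    push Not at hcon
    have h1 : ∀ k, p k y ≤ (1 / 4) * (1 / 2) ^ k := by
      intro k
      have h2 := hcon k
      simp only [ht] at h2
      have h3 : (2 : ℝ) ^ (k + 2) * p k y ≤ 1 := by linarith
      have h4 : (0 : ℝ) < 2 ^ (k + 2) := by positivity
      rw [← le_div_iff₀' h4] at h3
      refine h3.trans (le_of_eq ?_)
      rw [pow_add, one_div_pow]
      field_simp
      norm_num
    have h5 : ∑ᶠ k, p k y = 1 := p.sum_eq_one (mem_univ y)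
    have hfin : (Function.support fun k => p k y).Finite := p.locallyFinite.point_finite y
    rw [finsum_eq_sum _ hfin] at h5
    have h6 : ∑ i ∈ hfin.toFinset, p i y ≤ ∑ i ∈ hfin.toFinset, (1 / 4 : ℝ) * (1 / 2) ^ i :=
      Finset.sum_le_sum fun i _ => h1 i
    have h7 : Summable (fun i : ℕ => (1 / 4 : ℝ) * (1 / 2) ^ i) :=
      (summable_geometric_of_lt_one (by norm_num) (by norm_num)).mul_left _
    have h8 := h7.sum_le_tsum hfin.toFinset (fun i _ => by positivity)
    rw [tsum_mul_left, tsum_geometric_of_lt_one (by norm_num) (by norm_num)] at h8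
    norm_num at h8
    linarith
  choose m hm using hneg
  set S : Set Y := {y | ∃ z, ∀ k, y ∈ tsupport (p k) → κ.dL (g k y) z < E (k + 1)} with hS
  refine ⟨S, fun y => κ.chain (fun k => g k y) (fun k => t k y) (m y + 1) 0, ?_, ?_, ?_⟩
  · rw [isOpen_iff_mem_nhds]
    rintro y ⟨z, hz⟩
    have hlf : LocallyFinite fun k => tsupport (p k) := p.locallyFinite.closure
    have h1 := hlf.eventually_subset (fun k => isClosed_tsupport _) y
    have hfin : {k | y ∈ tsupport (p k)}.Finite := hlf.point_finite y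
    have h2 : ∀ᶠ w in 𝓝 y, ∀ k ∈ {k | y ∈ tsupport (p k)}, κ.dL (g k w) z < E (k + 1) := by
      rw [eventually_all_finite hfin]
      intro k hk
      have h3 : ContinuousAt (fun w => κ.dL (g k w) z) y :=
        (κ.continuous_dL.continuousAt).comp_of_eq
          (((hg k).continuousAt ((hQ k).mem_nhds (hp k hk))).prodMk continuousAt_const) rfl
      exact h3.eventually_lt_const (hz k hk)
    filter_upwards [h1, h2] with w hw1 hw2
    exact ⟨z, fun k hk => hw2 k (hw1 hk)⟩
  · intro y hy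
    obtain ⟨z, hz⟩ := hy
    refine ContinuousAt.continuousWithinAt ?_
    have h1 : ∀ᶠ z in 𝓝 y, t (m y) z < 0 := (htc (m y)).continuousAt.eventually_lt_const (hm y)
    have h2 := κ.chain_continuousAt hE g t y z (fun k => (htc k).continuousAt) (fun k => by
      by_cases hy : y ∈ tsupport (p k)
      · exact Or.inl ⟨(hg k).continuousAt ((hQ k).mem_nhds (hp k hy)), hz k hy⟩
      · exact Or.inr (ht1 k y hy)) (hm y) (m y + 1) 0 (Nat.zero_le _) (by omega)
    refine h2.congr ?_
    filter_upwards [h1] with z hz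
    by_cases hle : m y ≤ m z
    · exact κ.chain_stable _ _ hz.le _ _ 0 (Nat.zero_le _) (by omega) (by omega)
    · exact κ.chain_stable _ _ (hm z).le _ _ 0 (Nat.zero_le _) (by omega) (by omega)
  · intro y z h
    refine ⟨⟨z, fun k hk => h k (hp k hk)⟩, ?_⟩
    exact κ.chain_dL hE (fun k => g k y) (fun k => t k y) z
      (fun k hk => h k (hp k (hlt k y hk))) (hm y).le (m y + 1) 0 (Nat.zero_le _) (by omega)

/-- gluing near a subset -/
theorem glue {E : ℕ → ℝ} (hE : κ.Sched E) {Y : Type*} [TopologicalSpace Y]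
    [TopologicalSpace.MetrizableSpace Y]
    (Q : ℕ → Set Y) (hQ : ∀ k, IsOpen (Q k)) (g : ℕ → Y → G)
    (hg : ∀ k, ContinuousOn (g k) (Q k)) {P : Type*} (j : P → Y) (f : P → G)
    (hf : ∀ k, ∀ a : P, j a ∈ Q k → κ.dL (g k (j a)) (f a) < E (k + 1))
    (hA : ∀ a : P, ∃ k, j a ∈ Q k) :
    ∃ (W : Set Y) (J : Y → G), IsOpen W ∧ (∀ a, j a ∈ W) ∧ ContinuousOn J W ∧
      ∀ a, κ.dL (J (j a)) (f a) < E 0 := by
  classical
  set W : Set Y := ⋃ k, Q k with hW
  have hWo : IsOpen W := isOpen_iUnion hQ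
  let := TopologicalSpace.metrizableSpaceMetric Y
  obtain ⟨S, J, hS, hJ, hJe⟩ := κ.glue_univ hE (Y := W) (fun k => Subtype.val ⁻¹' (Q k))
    (fun k => (hQ k).preimage continuous_subtype_val)
    (by
      ext y
      simp only [mem_iUnion, mem_preimage, mem_univ, iff_true]
      exact mem_iUnion.1 y.2)
    (fun k y => g k y)
    (fun k => (hg k).comp continuous_subtype_val.continuousOn (fun y hy => hy))
  have hAW : ∀ a, j a ∈ W := fun a => by
    obtain ⟨k, hk⟩ := hA a
    exact mem_iUnion.2 ⟨k, hk⟩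
  have key : ∀ a, (⟨j a, hAW a⟩ : W) ∈ S ∧ κ.dL (J ⟨j a, hAW a⟩) (f a) < E 0 := fun a =>
    hJe ⟨j a, hAW a⟩ (f a) (fun k hk => hf k a hk)
  set J' : Y → G := fun y => if h : y ∈ W then J ⟨y, h⟩ else 1 with hJ'
  have hJW : ∀ y (h : y ∈ W), J' y = J ⟨y, h⟩ := fun y h => dif_pos h
  refine ⟨Subtype.val '' S, J', hWo.isOpenMap_subtype_val _ hS, ?_, ?_, ?_⟩
  · intro a
    exact ⟨⟨j a, hAW a⟩, (key a).1, rfl⟩
  · rintro _ ⟨y, hy, rfl⟩
    refine ContinuousAt.continuousWithinAt ?_
    have h1 : ContinuousAt J y := (hJ y hy).continuousAt (hS.mem_nhds hy)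
    have h2 : ContinuousAt (fun w : W => J' w) y := by
      refine h1.congr (Eventually.of_forall fun w => ?_)
      exact (hJW w w.2).symm
    exact (hWo.isOpenEmbedding_subtypeVal.continuousAt_iff).1 h2
  · intro a
    rw [hJW (j a) (hAW a)]
    exact (key a).2

end LCon

end Pool.Agent.H662.LC
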