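import Pool.Agent.H662.LC.Def

/-!
# Approximation by maps through absolute neighbourhood extensors: the space `Y₁` and the map `R`
-/

set_option autoImplicit false
set_option linter.unusedSectionVars false

open Set Topology Filter
open scoped BoundedContinuousFunction

namespace Pool.Agent.H662.LC

universe u

/-- the isometric embedding of Kuratowski -/
noncomputable def kur {X : Type u} [MetricSpace X] (x₀ x : X) : X →ᵇ ℝ :=
  BoundedContinuousFunction.ofNormedAddCommGroup (fun y => dist x y - dist x₀ y)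
    (by fun_prop) (dist x x₀) (fun y => by
      rw [Real.norm_eq_abs]
      exact abs_dist_sub_le x x₀ y)

theorem isometry_kur {X : Type u} [MetricSpace X] (x₀ : X) : Isometry (kur x₀) := by
  refine Isometry.of_dist_eq fun x x' => ?_
  refine le_antisymm ?_ ?_
  · rw [BoundedContinuousFunction.dist_le dist_nonneg]
    intro y
    show dist (dist x y - dist x₀ y) (dist x' y - dist x₀ y) ≤ _
    rw [dist_sub_right, Real.dist_eq]
    exact abs_dist_sub_le x x' y
  · have h1 := BoundedContinuousFunction.dist_coe_le_dist (f := kur x₀ x) (g := kur x₀ x') x'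
    have h2 : dist (kur x₀ x x') (kur x₀ x' x') = dist x x' := by
      show dist (dist x x' - dist x₀ x') (dist x' x' - dist x₀ x') = _
      rw [dist_sub_right, Real.dist_eq, dist_self, sub_zero, abs_of_nonneg dist_nonneg]
    rwa [h2] at h1

/-- the retraction-like map of an absolute neighbourhood extensor -/
theorem exists_retr {X : Type u} [MetricSpace X] (hX : IsANE X) (x₀ : X) :
    ∃ (O : Set ((X →ᵇ ℝ) × ℝ)) (r : (X →ᵇ ℝ) × ℝ → X),
      (∀ x, ∀ ε > 0, ∃ ρ > 0, ∀ p : (X →ᵇ ℝ) × ℝ, 0 < p.2 → dist p (kur x₀ x, 0) < ρ →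
        p ∈ O ∧ dist (r p) x < ε) ∧
      ContinuousOn r (O ∩ {p | 0 < p.2}) ∧ IsOpen (O ∩ {p | 0 < p.2}) := by
  classical
  set Y₁ : Set ((X →ᵇ ℝ) × ℝ) := {p | 0 < p.2 ∨ (p.2 = 0 ∧ p.1 ∈ range (kur x₀))} with hY₁
  set A₁ : Set Y₁ := {p | p.1.2 = 0} with hA₁
  have hA₁c : IsClosed A₁ := isClosed_eq (continuous_snd.comp continuous_subtype_val)
    continuous_const
  have hex : ∀ p : A₁, ∃ x : X, kur x₀ x = p.1.1.1 := by
    rintro ⟨⟨p, hp⟩, hp0⟩
    rcases hp with hp | hp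
    · exact absurd (show p.2 = 0 from hp0) hp.ne'
    · exact hp.2
  choose f₁ hf₁ using hex
  have hf₁c : Continuous f₁ := by
    rw [(isometry_kur x₀).isEmbedding.continuous_iff]
    have : (kur x₀ ∘ f₁) = fun p : A₁ => p.1.1.1 := by
      ext1 p
      exact hf₁ p
    rw [this]
    exact continuous_fst.comp (continuous_subtype_val.comp continuous_subtype_val)
  obtain ⟨O₁, hO₁, r, hO₁o, hr, hrf⟩ := hX Y₁ A₁ hA₁c f₁ hf₁c
  set q : X → Y₁ := fun x => ⟨(kur x₀ x, 0), Or.inr ⟨rfl, x, rfl⟩⟩ with hq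
  have hqA : ∀ x, q x ∈ A₁ := fun x => rfl
  have hrq : ∀ x, r ⟨q x, hO₁ (hqA x)⟩ = x := fun x => by
    have h1 := hrf ⟨q x, hqA x⟩
    rw [h1]
    apply (isometry_kur x₀).injective
    exact hf₁ ⟨q x, hqA x⟩
  set R : Y₁ → X := fun p => if h : p ∈ O₁ then r ⟨p, h⟩ else x₀ with hR
  have hRr : ∀ p (h : p ∈ O₁), R p = r ⟨p, h⟩ := fun p h => dif_pos h
  have hRc : ∀ p ∈ O₁, ContinuousAt R p := by
    intro p hp
    have h1 : ContinuousAt r ⟨p, hp⟩ := hr.continuousAt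
    have h2 : ContinuousAt (fun w : O₁ => R w) ⟨p, hp⟩ := by
      refine h1.congr (Eventually.of_forall fun w => ?_)
      exact (hRr w w.2).symm
    exact (hO₁o.isOpenEmbedding_subtypeVal.continuousAt_iff (x := ⟨p, hp⟩)).1 h2
  set O : Set ((X →ᵇ ℝ) × ℝ) := {p | ∃ h : p ∈ Y₁, (⟨p, h⟩ : Y₁) ∈ O₁} with hO
  set r' : (X →ᵇ ℝ) × ℝ → X := fun p => if h : p ∈ Y₁ then R ⟨p, h⟩ else x₀ with hr'
  have hr'R : ∀ p (h : p ∈ Y₁), r' p = R ⟨p, h⟩ := fun p h => dif_pos h
  have hpos : IsOpen {p : (X →ᵇ ℝ) × ℝ | 0 < p.2} := isOpen_lt continuous_const continuous_snd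
  have hposY : {p : (X →ᵇ ℝ) × ℝ | 0 < p.2} ⊆ Y₁ := fun p hp => Or.inl hp
  -- the inclusion of the upper half space
  set inc : {p : (X →ᵇ ℝ) × ℝ | 0 < p.2} → Y₁ := fun p => ⟨p.1, hposY p.2⟩ with hinc
  have hincc : Continuous inc := continuous_subtype_val.subtype_mk _
  have hOo : IsOpen (O ∩ {p | 0 < p.2}) := by
    have h1 : O ∩ {p | 0 < p.2} = Subtype.val '' (inc ⁻¹' O₁) := by
      ext p
      constructor
      · rintro ⟨⟨h, h'⟩, hp⟩
        exact ⟨⟨p, hp⟩, h', rfl⟩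
      · rintro ⟨p, hp, rfl⟩
        exact ⟨⟨hposY p.2, hp⟩, p.2⟩
    rw [h1]
    exact hpos.isOpenMap_subtype_val _ (hO₁o.preimage hincc)
  refine ⟨O, r', ?_, ?_, hOo⟩
  · intro x ε hε
    have h1 : ContinuousAt R (q x) := hRc _ (hO₁ (hqA x))
    have h2 : R (q x) = x := by rw [hRr _ (hO₁ (hqA x)), hrq]
    have h3 : ∀ᶠ p in 𝓝 (q x), p ∈ O₁ ∧ dist (R p) x < ε := by
      have h0 : ∀ᶠ p in 𝓝 (q x), p ∈ O₁ := hO₁o.mem_nhds (hO₁ (hqA x))
      refine h0.and ?_
      have h4 := Metric.continuousAt_iff'.1 h1 ε hε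
      rw [h2] at h4
      exact h4
    obtain ⟨ρ, hρ, h4⟩ := Metric.eventually_nhds_iff.1 h3
    refine ⟨ρ, hρ, fun p hp hpd => ?_⟩
    have hpY : p ∈ Y₁ := Or.inl hp
    have h5 := h4 (y := ⟨p, hpY⟩) hpd
    refine ⟨⟨hpY, h5.1⟩, ?_⟩
    rw [hr'R p hpY]
    exact h5.2
  · rintro p ⟨⟨hpY, hpO⟩, hp0⟩
    refine ContinuousAt.continuousWithinAt ?_
    have h1 : ContinuousAt (fun w : {p : (X →ᵇ ℝ) × ℝ | 0 < p.2} => r' w) ⟨p, hp0⟩ := by
      have h2 : ContinuousAt (R ∘ inc) ⟨p, hp0⟩ := by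
        refine ContinuousAt.comp ?_ hincc.continuousAt
        exact hRc _ hpO
      refine h2.congr (Eventually.of_forall fun w => ?_)
      exact (hr'R w.1 (hposY w.2)).symm
    exact (hpos.isOpenEmbedding_subtypeVal.continuousAt_iff (x := ⟨p, hp0⟩)).1 h1

/-- approximate extension of a map from an arbitrary subset to an absolute neighbourhood
extensor -/
theorem approx_ane {X : Type u} [MetricSpace X] (hX : IsANE X) {Y : Type*} [MetricSpace Y]
    {P : Type*} [TopologicalSpace P] {j : P → Y} (hj : IsInducing j) {φ : P → X}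
    (hφ : Continuous φ) (ε σ : P → ℝ) (hε : ∀ p, 0 < ε p) (hσ : ∀ p, 0 < σ p) :
    ∃ (Q : Set Y) (g : Q → X), IsOpen Q ∧ Continuous g ∧ (∀ p, j p ∈ Q) ∧
      ∀ y : Q, ∃ p, dist (y : Y) (j p) < σ p ∧ dist (g y) (φ p) < ε p := by
  classical
  rcases isEmpty_or_nonempty P with hP | ⟨⟨p₀⟩⟩
  · exact ⟨∅, fun y => absurd y.2 (notMem_empty _), isOpen_empty, by
      rw [continuous_iff_continuousAt]; exact fun y => absurd y.2 (notMem_empty _),
      fun p => (hP.false p).elim, fun y => absurd y.2 (notMem_empty _)⟩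
  obtain ⟨O, r, hOr, hrc, hOo⟩ := exists_retr hX (φ p₀)
  choose ρ hρ hρ' using fun p => hOr (φ p) (ε p) (hε p)
  have hs : ∀ p, ∃ s > 0, s ≤ ρ p ∧ s ≤ σ p ∧ ∀ p', dist (j p') (j p) < s →
      dist (φ p') (φ p) < ρ p := by
    intro p
    have h1 : ∀ᶠ p' in 𝓝 p, dist (φ p') (φ p) < ρ p :=
      hφ.continuousAt.eventually (Metric.ball_mem_nhds _ (hρ p))
    rw [hj.nhds_eq_comap] at h1
    obtain ⟨U, hU, hU'⟩ := mem_comap.1 h1
    obtain ⟨s, hs, hs'⟩ := Metric.mem_nhds_iff.1 hU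
    refine ⟨min s (min (ρ p) (σ p)), lt_min hs (lt_min (hρ p) (hσ p)),
      (min_le_right _ _).trans (min_le_left _ _), (min_le_right _ _).trans (min_le_right _ _),
      fun p' hp' => ?_⟩
    exact hU' (hs' (show dist (j p') (j p) < s from hp'.trans_le (min_le_left _ _)))
  choose s hs hsρ hsσ hsφ using hs
  set Q : Set Y := ⋃ p, Metric.ball (j p) (s p / 4) with hQ
  have hQo : IsOpen Q := isOpen_iUnion fun p => Metric.isOpen_ball
  obtain ⟨f, hf⟩ := PartitionOfUnity.exists_isSubordinate (X := Q) (s := univ) isClosed_univ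
    (fun p => Subtype.val ⁻¹' (Metric.ball (j p) (s p / 4)))
    (fun p => Metric.isOpen_ball.preimage continuous_subtype_val) (by
      intro y _
      obtain ⟨p, hp⟩ := mem_iUnion.1 y.2
      exact mem_iUnion.2 ⟨p, hp⟩)
  set W : Q → (X →ᵇ ℝ) × ℝ := fun y => ∑ᶠ p, f p y • ((kur (φ p₀) (φ p), s p / 4) :
    (X →ᵇ ℝ) × ℝ) with hW
  have hWc : Continuous W := f.continuous_finsum_smul (fun p y _ => continuousAt_const)
  have key : ∀ y : Q, ∃ p, dist (y : Y) (j p) < s p / 4 ∧ 0 < (W y).2 ∧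
      dist (W y) (kur (φ p₀) (φ p), 0) < ρ p := by
    intro y
    have hfin : {p | f p y ≠ 0}.Finite := f.locallyFinite.point_finite y
    have hne : {p | f p y ≠ 0}.Nonempty := by
      obtain ⟨p, hp⟩ := f.exists_pos (mem_univ y)
      exact ⟨p, hp.ne'⟩
    have hball : ∀ p, f p y ≠ 0 → dist (y : Y) (j p) < s p / 4 := fun p hp =>
      hf p (subset_closure hp)
    obtain ⟨q, hq, hqm⟩ := exists_max_image _ s hfin hne
    refine ⟨q, hball q hq, ?_⟩
    have hconv : Convex ℝ {w : (X →ᵇ ℝ) × ℝ | w ∈ Metric.ball (kur (φ p₀) (φ q), (0 : ℝ)) (ρ q) ∧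
        0 < w.2} :=
      (convex_ball _ _).inter ((convex_Ioi (0 : ℝ)).linear_preimage
        (LinearMap.snd ℝ (X →ᵇ ℝ) ℝ))
    have h1 := f.finsum_smul_mem_convex (x := y) (g := fun p _ => ((kur (φ p₀) (φ p), s p / 4) :
      (X →ᵇ ℝ) × ℝ)) (mem_univ y) (fun p hp => ?_) hconv
    · exact ⟨h1.2, h1.1⟩
    · refine ⟨?_, by show 0 < s p / 4; have := hs p; positivity⟩
      have h2 : s p ≤ s q := hqm p hp
      have h3 : dist (j p) (j q) < s q := by
        have h4 := dist_triangle_left (j p) (j q) (y : Y)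
        have h5 := hball p hp
        have h6 := hball q hq
        have h7 := hs q
        linarith
      have h4 := hsφ q p h3
      rw [Metric.mem_ball, Prod.dist_eq]
      refine max_lt ?_ ?_
      · show dist (kur (φ p₀) (φ p)) (kur (φ p₀) (φ q)) < _
        rw [(isometry_kur (φ p₀)).dist_eq]
        exact h4
      · show dist (s p / 4) 0 < _
        have h5 := hs p
        have h6 := hsρ q
        rw [Real.dist_eq, sub_zero, abs_of_nonneg (by positivity)]
        linarith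
  refine ⟨Q, fun y => r (W y), hQo, ?_, fun p => ?_, fun y => ?_⟩
  · rw [continuous_iff_continuousAt]
    intro y
    obtain ⟨p, _, h2, h3⟩ := key y
    have h4 : W y ∈ O ∩ {p | 0 < p.2} := ⟨(hρ' p (W y) h2 h3).1, h2⟩
    exact (hrc.continuousAt (hOo.mem_nhds h4)).comp hWc.continuousAt
  · refine mem_iUnion.2 ⟨p, ?_⟩
    rw [Metric.mem_ball, dist_self]
    have := hs p
    positivity
  · obtain ⟨p, h1, h2, h3⟩ := key y
    refine ⟨p, ?_, (hρ' p (W y) h2 h3).2⟩
    have h4 := hs p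
    have h5 := hsσ p
    linarith

end Pool.Agent.H662.LC
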