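import Pool.Agent.H662.LC.Glue

/-!
# Limits of maps which extend to neighbourhoods extend to a neighbourhood
-/

set_option autoImplicit false
set_option linter.unusedSectionVars false

open Set Topology Filter

namespace Pool.Agent.H662.LC

namespace LCon

variable {G : Type*} [Group G] [TopologicalSpace G] [IsTopologicalGroup G] (κ : LCon G)

/-- the successive extensions -/
def seqF {Y : Type*} (J : ℕ → Y → G) (θ : Y → ℝ) : ℕ → Y → G
  | 0, _ => 1
  | K + 1, y => κ.lam (seqF J θ K y) (J K y) (2 - 2 ^ K * θ y)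

theorem limit_ext {Y : Type*} [TopologicalSpace Y] [TopologicalSpace.MetrizableSpace Y]
    (A : Set Y) (hA : IsClosed A) (f : A → G) (hf : Continuous f)
    (W : ℕ → Set Y) (hW : ∀ k, IsOpen (W k)) (hAW : ∀ k, A ⊆ W k)
    (J : ℕ → Y → G) (hJ : ∀ k, ContinuousOn (J k) (W k)) (e : ℕ → ℝ)
    (hJf : ∀ k, ∀ a : A, κ.dL (J k a) (f a) < e k)
    (heR : ∀ k, 2 * e k ≤ κ.R) (he1 : ∀ k, e k ≤ (1 / 2) ^ k) (heanti : ∀ k, e (k + 1) ≤ e k)
    (hmod : ∀ k g, κ.N g < 2 * e k → ∀ t, κ.N (κ.c t g) < (1 / 2) ^ k) :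
    ∃ (O : Set Y) (F : Y → G), IsOpen O ∧ A ⊆ O ∧ ContinuousOn F O ∧ ∀ a : A, F a = f a := by
  classical
  let := TopologicalSpace.metrizableSpaceMetric Y
  set N : ℕ → Set Y := fun K => {y | ∃ a : A, dist y a < (1 / 2) ^ K ∧
    ∀ j ∈ Finset.range (K + 1), y ∈ W j ∧ κ.dL (J j y) (f a) < e j} with hN
  have hNo : ∀ K, IsOpen (N K) := by
    intro K
    have h1 : N K = (⋃ a : A, ({y : Y | dist y (a : Y) < (1 / 2) ^ K} ∩
        ⋂ j ∈ Finset.range (K + 1),
          (W j ∩ {y : Y | κ.dL (J j y) (f a) < e j})) : Set Y) := by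
      ext y
      simp only [hN, mem_ofPred_eq, mem_iUnion, mem_inter_iff, mem_iInter]
    rw [h1]
    refine isOpen_iUnion fun a => IsOpen.inter ?_ ?_
    · exact isOpen_lt (continuous_id.dist continuous_const) continuous_const
    · refine isOpen_biInter_finset fun j _ => ?_
      have h2 : ContinuousOn (fun y => κ.dL (J j y) (f a)) (W j) :=
        κ.continuous_dL.comp_continuousOn ((hJ j).prodMk continuousOn_const)
      exact h2.isOpen_inter_preimage (hW j) (isOpen_Iio (a := e j))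
  have hAN : ∀ K, A ⊆ N K := by
    intro K y hy
    exact ⟨⟨y, hy⟩, by simp, fun j _ => ⟨hAW j hy, hJf j ⟨y, hy⟩⟩⟩
  have hψ : ∀ K, ∃ ψ : C(Y, ℝ), EqOn ψ 0 (N K)ᶜ ∧ EqOn ψ 1 A ∧ ∀ x, ψ x ∈ Icc (0 : ℝ) 1 :=
    fun K => exists_continuous_zero_one_of_isClosed (hNo K).isClosed_compl hA
      (Set.disjoint_left.2 fun x hx hx' => hx (hAN K hx'))
  choose ψ hψ0 hψ1 hψ01 using hψ
  set θ : Y → ℝ := fun y => ∑' K : ℕ, (4 * (1 / 2 : ℝ) ^ K) * (1 - ψ K y) with hθ
  have hsum0 : Summable (fun K : ℕ => 4 * (1 / 2 : ℝ) ^ K) :=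
    (summable_geometric_of_lt_one (by norm_num) (by norm_num)).mul_left _
  have hterm : ∀ K y, 0 ≤ (4 * (1 / 2 : ℝ) ^ K) * (1 - ψ K y) := fun K y =>
    mul_nonneg (by positivity) (by linarith [(hψ01 K y).2])
  have hterm' : ∀ K y, (4 * (1 / 2 : ℝ) ^ K) * (1 - ψ K y) ≤ 4 * (1 / 2 : ℝ) ^ K := fun K y => by
    have h1 : (0 : ℝ) ≤ 4 * (1 / 2 : ℝ) ^ K := by positivity
    nlinarith [(hψ01 K y).1]
  have hsum : ∀ y, Summable (fun K : ℕ => (4 * (1 / 2 : ℝ) ^ K) * (1 - ψ K y)) := fun y =>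
    Summable.of_nonneg_of_le (fun K => hterm K y) (fun K => hterm' K y) hsum0
  have hθc : Continuous θ := by
    refine continuous_tsum (fun K => ?_) hsum0 (fun K y => ?_)
    · have := (ψ K).continuous
      fun_prop
    · rw [Real.norm_of_nonneg (hterm K y)]
      exact hterm' K y
  have hθA : ∀ y ∈ A, θ y = 0 := by
    intro y hy
    have : ∀ K, (4 * (1 / 2 : ℝ) ^ K) * (1 - ψ K y) = 0 := fun K => by
      rw [hψ1 K hy]; simp
    simp only [hθ, this, tsum_zero]
  have hθN : ∀ K y, y ∉ N K → 4 * (1 / 2 : ℝ) ^ K ≤ θ y := by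
    intro K y hy
    have h1 := (hsum y).le_tsum K (fun i _ => hterm i y)
    rw [hψ0 K hy] at h1
    simp only [Pi.zero_apply, sub_zero, mul_one] at h1
    exact h1
  have hθA' : ∀ y, y ∉ A → 0 < θ y := by
    intro y hy
    by_cases hne : A.Nonempty
    · have h1 : 0 < Metric.infDist y A := (hA.notMem_iff_infDist_pos hne).1 hy
      obtain ⟨K, hK⟩ := exists_pow_lt_of_lt_one h1 (by norm_num : (1 / 2 : ℝ) < 1)
      have h2 : y ∉ N K := by
        rintro ⟨a, ha, _⟩
        have := Metric.infDist_le_dist_of_mem (x := y) a.2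
        linarith
      have := hθN K y h2
      have h4 : (0 : ℝ) < 4 * (1 / 2 : ℝ) ^ K := by positivity
      linarith
    · have h2 : y ∉ N 0 := by
        rintro ⟨a, _⟩
        exact hne ⟨a, a.2⟩
      have := hθN 0 y h2
      norm_num at this
      linarith
  have hpow : ∀ K : ℕ, (2 : ℝ) ^ K * (1 / 2) ^ K = 1 := fun K => by
    rw [← mul_pow]; norm_num
  have hσN : ∀ K y, y ∉ N K → 2 - 2 ^ K * θ y < 0 := by
    intro K y hy
    have h1 := hθN K y hy
    have h2 : (2 : ℝ) ^ K * (4 * (1 / 2 : ℝ) ^ K) ≤ 2 ^ K * θ y :=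
      mul_le_mul_of_nonneg_left h1 (by positivity)
    have h3 : (2 : ℝ) ^ K * (4 * (1 / 2 : ℝ) ^ K) = 4 := by
      rw [mul_left_comm, hpow]; norm_num
    linarith
  have hθ0 : ∀ y, 0 ≤ θ y := fun y => by
    by_cases hy : y ∈ A
    · rw [hθA y hy]
    · exact (hθA' y hy).le
  have hσmono : ∀ y, ∀ K K' : ℕ, K ≤ K' → 2 - 2 ^ K * θ y ≤ 0 →
      2 - 2 ^ K' * θ y ≤ 0 := by
    intro y K K' hKK h
    have h1 : (2 : ℝ) ^ K ≤ 2 ^ K' := pow_le_pow_right₀ (by norm_num) hKK
    nlinarith [hθ0 y]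
  set O : Set Y := {y | θ y < 1} with hO
  have hOo : IsOpen O := isOpen_lt hθc continuous_const
  have hAO : A ⊆ O := fun y hy => by
    show θ y < 1
    rw [hθA y hy]
    exact one_pos
  -- the values at the moment of the switch
  have hpair : ∀ K y, y ∈ N (K + 1) → κ.dL (J K y) (J (K + 1) y) < 2 * e K := by
    rintro K y ⟨a, _, h⟩
    have h1 := (h K (by simp)).2
    have h2 := (h (K + 1) (by simp)).2
    have h3 := κ.dL_triangle (J K y) (f a) (J (K + 1) y)
    rw [κ.dL_comm (f a)] at h3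
    have := heanti K
    linarith
  have hFc : ∀ K, ∀ y ∈ O, ContinuousAt (κ.seqF J θ K) y := by
    intro K
    induction K with
    | zero => exact fun y _ => continuousAt_const
    | succ K ih =>
      intro y hyO
      by_cases hy : y ∈ N K
      · have hyW : y ∈ W K := by
          obtain ⟨a, _, h⟩ := hy
          exact (h K (by simp)).1
        have hJy : ContinuousAt (J K) y := (hJ K).continuousAt ((hW K).mem_nhds hyW)
        cases K with
        | zero =>
          refine hJy.congr ?_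
          filter_upwards [hOo.mem_nhds hyO] with z hz
          show _ = κ.lam _ _ _
          rw [κ.lam_of_ge]
          have : θ z < 1 := hz
          rw [pow_zero, one_mul]
          linarith
        | succ K =>
          have hc : Continuous fun z => 2 - 2 ^ (K + 1) * θ z := by fun_prop
          rcases le_or_gt 0 (2 - 2 ^ (K + 1) * θ y) with h2 | h2
          · refine κ.continuousAt_lam' (ih y hyO) hJy hc.continuousAt ?_
            have h3 : κ.seqF J θ (K + 1) y = J K y := by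
              show κ.lam _ _ _ = _
              rw [κ.lam_of_ge]
              rw [pow_succ] at h2
              linarith
            rw [h3]
            exact (hpair K y hy).trans_le (heR K)
          · refine (ih y hyO).congr ?_
            filter_upwards [hc.continuousAt.eventually_lt_const h2] with z hz
            show _ = κ.lam (κ.seqF J θ (K + 1) z) _ _
            rw [κ.lam_of_le _ _ hz.le]
      · have h1 : ∀ᶠ z in 𝓝 y, 2 - 2 ^ K * θ z < 0 := by
          have : Continuous fun z => 2 - 2 ^ K * θ z := by fun_prop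
          exact this.continuousAt.eventually_lt_const (hσN K y hy)
        refine (ih y hyO).congr ?_
        filter_upwards [h1] with z hz
        show _ = κ.lam _ _ _
        rw [κ.lam_of_le _ _ hz.le]
  have hFst : ∀ y K, 2 - 2 ^ K * θ y ≤ 0 → ∀ K', K ≤ K' → κ.seqF J θ K' y = κ.seqF J θ K y := by
    intro y K hK K' hKK
    induction K', hKK using Nat.le_induction with
    | base => rfl
    | succ K' hKK ih =>
      show κ.lam _ _ _ = _
      rw [κ.lam_of_le _ _ (hσmono y K K' hKK hK), ih]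
  have hex : ∀ y, y ∉ A → ∃ K : ℕ, 2 - 2 ^ K * θ y ≤ 0 := by
    intro y hy
    have h1 := hθA' y hy
    obtain ⟨K, hK⟩ := pow_unbounded_of_one_lt (2 / θ y) (by norm_num : (1 : ℝ) < 2)
    refine ⟨K, ?_⟩
    rw [div_lt_iff₀ h1] at hK
    linarith
  set F : Y → G := fun y => if h : y ∈ A then f ⟨y, h⟩ else
    κ.seqF J θ (if h' : ∃ K : ℕ, 2 - 2 ^ K * θ y ≤ 0 then Nat.find h' else 0) y with hF
  have hFK : ∀ y, y ∉ A → ∀ K : ℕ, 2 - 2 ^ K * θ y ≤ 0 → F y = κ.seqF J θ K y := by
    intro y hy K hK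
    have h' : ∃ K : ℕ, 2 - 2 ^ K * θ y ≤ 0 := ⟨K, hK⟩
    simp only [hF, hy, dite_false, h', dite_true]
    exact (hFst y _ (Nat.find_spec h') K (Nat.find_min' h' hK)).symm
  have hFA : ∀ a : A, F a = f a := by
    intro a
    simp only [hF, a.2, dite_true]
  -- the key analysis off `A`
  have key : ∀ y, y ∉ A → ∀ M : ℕ, θ y < (1 / 2) ^ M → ∃ m, M < m + 1 ∧
      ∃ a : A, dist y a < (1 / 2) ^ (m + 1) ∧ κ.dL (F y) (f a) < 2 * (1 / 2) ^ m := by
    intro y hy M hM
    have h' := hex y hy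
    set p := Nat.find h' with hp
    have hp1 : 2 - 2 ^ p * θ y ≤ 0 := Nat.find_spec h'
    have hpM : M + 1 < p := by
      by_contra hcon
      have h2 := hσmono y p (M + 1) (not_lt.1 hcon) hp1
      have h3 : (2 : ℝ) ^ M * θ y < 2 ^ M * (1 / 2) ^ M :=
        mul_lt_mul_of_pos_left hM (by positivity)
      rw [hpow] at h3
      rw [pow_succ] at h2
      linarith
    obtain ⟨m, hm⟩ : ∃ m, p = m + 2 := ⟨p - 2, by omega⟩
    have hσm : 0 < 2 - 2 ^ (m + 1) * θ y := by
      by_contra hcon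
      exact Nat.find_min h' (show m + 1 < Nat.find h' by rw [← hp, hm]; omega) (not_lt.1 hcon)
    have hσm1 : 1 ≤ 2 - 2 ^ m * θ y := by
      rw [pow_succ] at hσm
      linarith
    have hyN : y ∈ N (m + 1) := by
      by_contra hcon
      have := hσN _ _ hcon
      linarith
    have hFy : F y = κ.lam (J m y) (J (m + 1) y) (2 - 2 ^ (m + 1) * θ y) := by
      rw [hFK y hy p hp1, hm]
      show κ.lam (κ.lam _ _ _) _ _ = _
      rw [κ.lam_of_ge _ _ hσm1]
    have hpm := hpair m y hyN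
    obtain ⟨a, ha1, ha2⟩ := hyN
    refine ⟨m, by omega, a, ha1, ?_⟩
    have h1 := κ.dL_lam_lt (hmod m) hpm (2 - 2 ^ (m + 1) * θ y)
    rw [← hFy] at h1
    have h2 := κ.dL_triangle' (F y) (J m y) (f a)
    have h3 := (ha2 m (by simp)).2
    have h4 := he1 m
    linarith
  refine ⟨O, F, hOo, hAO, ?_, hFA⟩
  intro y hyO
  refine ContinuousAt.continuousWithinAt ?_
  by_cases hy : y ∈ A
  · -- continuity at the points of `A`
    rw [ContinuousAt, κ.tendsto_iff]
    intro ε hε
    have hFy : F y = f ⟨y, hy⟩ := hFA ⟨y, hy⟩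
    rw [hFy]
    have h1 : ∀ᶠ a in 𝓝 (⟨y, hy⟩ : A), κ.dL (f ⟨y, hy⟩) (f a) < ε / 2 :=
      κ.tendsto_iff.1 (hf.tendsto _) _ (by linarith)
    rw [Metric.eventually_nhds_iff] at h1
    obtain ⟨r, hr, h1⟩ := h1
    obtain ⟨M1, hM1⟩ := exists_pow_lt_of_lt_one (show 0 < ε / 4 by positivity)
      (by norm_num : (1 / 2 : ℝ) < 1)
    obtain ⟨M2, hM2⟩ := exists_pow_lt_of_lt_one (show 0 < r / 2 by positivity)
      (by norm_num : (1 / 2 : ℝ) < 1)
    set M := max M1 M2 with hM
    have h2 : ∀ᶠ z in 𝓝 y, θ z < (1 / 2) ^ M :=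
      hθc.continuousAt.eventually_lt_const (by rw [hθA y hy]; positivity)
    have h3 : ∀ᶠ z in 𝓝 y, dist z y < r / 2 := Metric.ball_mem_nhds y (by positivity)
    filter_upwards [h2, h3] with z hz1 hz2
    by_cases hz : z ∈ A
    · have h4 := h1 (y := ⟨z, hz⟩) (by rw [Subtype.dist_eq]; simp only; linarith)
      have h5 : F z = f ⟨z, hz⟩ := hFA ⟨z, hz⟩
      rw [h5]
      linarith
    · obtain ⟨m, hmM, a, ha1, ha2⟩ := key z hz M hz1
      have hle : (1 / 2 : ℝ) ^ (m + 1) ≤ (1 / 2) ^ M2 :=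
        pow_le_pow_of_le_one (by norm_num) (by norm_num) (by omega)
      have hle' : (1 / 2 : ℝ) ^ m ≤ (1 / 2) ^ M1 :=
        pow_le_pow_of_le_one (by norm_num) (by norm_num) (by omega)
      have h4 : dist (a : Y) y < r := by
        have := dist_triangle (a : Y) z y
        rw [dist_comm (a : Y) z] at this
        linarith
      have h5 := h1 (y := a) (by rw [Subtype.dist_eq]; exact h4)
      have h6 := κ.dL_triangle (f ⟨y, hy⟩) (f a) (F z)
      rw [κ.dL_comm (f a)] at h6
      linarith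
  · -- continuity off `A`
    have h1 := hθA' y hy
    obtain ⟨K, hK⟩ := pow_unbounded_of_one_lt (2 / θ y) (by norm_num : (1 : ℝ) < 2)
    rw [div_lt_iff₀ h1] at hK
    have h2 : ∀ᶠ z in 𝓝 y, 2 - 2 ^ K * θ z < 0 := by
      have : Continuous fun z => 2 - 2 ^ K * θ z := by fun_prop
      exact this.continuousAt.eventually_lt_const (by linarith)
    have h3 : ∀ᶠ z in 𝓝 y, z ∉ A := hA.isOpen_compl.mem_nhds hy
    refine (hFc K y hyO).congr ?_
    filter_upwards [h2, h3] with z hz1 hz2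
    exact (hFK z hz2 K hz1.le).symm

/-- a map which has approximations on neighbourhoods of its domain extends to a neighbourhood -/
theorem ext_of_approx {Y : Type*} [TopologicalSpace Y] [TopologicalSpace.MetrizableSpace Y]
    (A : Set Y) (hA : IsClosed A) (f : A → G) (hf : Continuous f)
    (h : ∀ ε > 0, ∃ (W : Set Y) (J : Y → G), IsOpen W ∧ A ⊆ W ∧ ContinuousOn J W ∧
      ∀ a : A, κ.dL (J a) (f a) < ε) :
    ∃ (O : Set Y) (F : Y → G), IsOpen O ∧ A ⊆ O ∧ ContinuousOn F O ∧ ∀ a : A, F a = f a := by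
  choose! δ hδ hδ' using κ.modulus
  set e : ℕ → ℝ := fun k => Nat.rec (min (δ ((1 / 2) ^ 0)) (min κ.R 1) / 2)
    (fun k e => min e (min (δ ((1 / 2) ^ (k + 1)) / 2) ((1 / 2) ^ (k + 1)))) k with he
  have he0 : e 0 = min (δ ((1 / 2) ^ 0)) (min κ.R 1) / 2 := rfl
  have heS : ∀ k, e (k + 1) = min (e k) (min (δ ((1 / 2) ^ (k + 1)) / 2) ((1 / 2) ^ (k + 1))) :=
    fun k => rfl
  have hpos : ∀ k, 0 < e k := by
    intro k
    induction k with
    | zero =>
      rw [he0]
      have h1 := hδ ((1 / 2) ^ 0) (by positivity)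
      have h2 := κ.R_pos
      positivity
    | succ k ih =>
      rw [heS]
      have h1 := hδ ((1 / 2) ^ (k + 1)) (by positivity)
      have h2 := κ.R_pos
      positivity
  have hanti : ∀ k, e (k + 1) ≤ e k := fun k => by rw [heS]; exact min_le_left _ _
  have heR : ∀ k, 2 * e k ≤ κ.R := by
    intro k
    induction k with
    | zero =>
      rw [he0]
      have h1 : min (δ ((1 / 2) ^ 0)) (min κ.R 1) ≤ κ.R := (min_le_right _ _).trans (min_le_left _ _)
      linarith
    | succ k ih => linarith [hanti k]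
  have he1 : ∀ k, e k ≤ (1 / 2) ^ k := by
    intro k
    cases k with
    | zero =>
      rw [he0]
      have h1 : min (δ ((1 / 2) ^ 0)) (min κ.R 1) ≤ 1 := (min_le_right _ _).trans (min_le_right _ _)
      rw [pow_zero] at h1 ⊢
      linarith
    | succ k =>
      rw [heS]
      exact (min_le_right _ _).trans (min_le_right _ _)
  have heδ : ∀ k, 2 * e k ≤ δ ((1 / 2) ^ k) := by
    intro k
    cases k with
    | zero =>
      rw [he0]
      have h1 : min (δ ((1 / 2) ^ 0)) (min κ.R 1) ≤ δ ((1 / 2) ^ 0) := min_le_left _ _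
      linarith
    | succ k =>
      rw [heS]
      have h1 : min (e k) (min (δ ((1 / 2) ^ (k + 1)) / 2) ((1 / 2) ^ (k + 1))) ≤
        δ ((1 / 2) ^ (k + 1)) / 2 := (min_le_right _ _).trans (min_le_left _ _)
      linarith
  choose W J hW hAW hJ hJf using fun k => h (e k) (hpos k)
  exact κ.limit_ext A hA f hf W hW hAW J hJ e hJf heR he1 hanti
    (fun k g hg t => hδ' ((1 / 2) ^ k) (by positivity) g (hg.trans_le (heδ k)) t)

end LCon

end Pool.Agent.H662.LC
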