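import Pool.Agent.H662.LC.Norm
import Pool.Agent.H662.LC.Kur

/-!
# Maps which have approximate extensions to neighbourhoods
-/

set_option autoImplicit false
set_option linter.unusedSectionVars false

open Set Topology Filter

namespace Pool.Agent.H662.LC

universe u

namespace LCon

variable {G : Type*} [Group G] [TopologicalSpace G] [IsTopologicalGroup G] (κ : LCon G)

/-- `u` can be approximated by maps defined on neighbourhoods of its domain in `Y` -/
def Nice {Y : Type*} [TopologicalSpace Y] {P : Type*} (j : P → Y) (u : P → G) : Prop :=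
  ∀ δ > 0, ∃ (Q : Set Y) (g : Y → G), IsOpen Q ∧ (∀ p, j p ∈ Q) ∧ ContinuousOn g Q ∧
    ∀ p, κ.dL (g (j p)) (u p) < δ

theorem Nice.of_open {Y : Type*} [TopologicalSpace Y] {P : Type*} {j : P → Y} {u : P → G}
    (Q : Set Y) (hQ : IsOpen Q) (hjQ : ∀ p, j p ∈ Q) (g : Y → G) (hg : ContinuousOn g Q)
    (hgu : ∀ p, g (j p) = u p) : κ.Nice j u := fun δ hδ =>
  ⟨Q, g, hQ, hjQ, hg, fun p => by rw [hgu, κ.dL_self]; exact hδ⟩

theorem Nice.of_ane {Y : Type*} [TopologicalSpace Y] [TopologicalSpace.MetrizableSpace Y]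
    {P : Type*} [TopologicalSpace P] {j : P → Y} (hj : IsInducing j) {u : P → G}
    {X : Type u} [TopologicalSpace X] [TopologicalSpace.MetrizableSpace X] (hX : IsANE X)
    (φ : P → X) (hφ : Continuous φ) (ψ : X → G) (hψ : Continuous ψ) (hu : ∀ p, u p = ψ (φ p)) :
    κ.Nice j u := by
  classical
  intro δ hδ
  let := TopologicalSpace.metrizableSpaceMetric Y
  let := TopologicalSpace.metrizableSpaceMetric X
  have huc : Continuous u := by
    have : u = ψ ∘ φ := funext hu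
    rw [this]
    exact hψ.comp hφ
  have h1 : ∀ p, ∃ ε > 0, ∀ x, dist x (φ p) < ε → κ.dL (ψ x) (u p) < δ / 2 := by
    intro p
    have h2 : ContinuousAt (fun x => κ.dL (ψ x) (u p)) (φ p) :=
      (κ.continuous_dL.comp (hψ.prodMk continuous_const)).continuousAt
    have h3 : ∀ᶠ x in 𝓝 (φ p), κ.dL (ψ x) (u p) < δ / 2 := by
      refine h2.eventually_lt_const ?_
      show κ.dL (ψ (φ p)) (u p) < δ / 2
      rw [← hu, κ.dL_self]
      positivity
    obtain ⟨ε, hε, h4⟩ := Metric.eventually_nhds_iff.1 h3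
    exact ⟨ε, hε, fun x hx => h4 hx⟩
  have h2 : ∀ p, ∃ σ > 0, ∀ p', dist (j p') (j p) < σ → κ.dL (u p) (u p') < δ / 2 := by
    intro p
    have h3 : ContinuousAt (fun p' => κ.dL (u p) (u p')) p :=
      (κ.continuous_dL.comp (continuous_const.prodMk huc)).continuousAt
    have h4 : ∀ᶠ p' in 𝓝 p, κ.dL (u p) (u p') < δ / 2 := by
      refine h3.eventually_lt_const ?_
      show κ.dL (u p) (u p) < δ / 2
      rw [κ.dL_self]
      positivity
    rw [hj.nhds_eq_comap] at h4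
    obtain ⟨U, hU, hU'⟩ := mem_comap.1 h4
    obtain ⟨σ, hσ, hσ'⟩ := Metric.mem_nhds_iff.1 hU
    exact ⟨σ, hσ, fun p' hp' => hU' (hσ' hp')⟩
  choose ε hε hε' using h1
  choose σ hσ hσ' using h2
  obtain ⟨Q, g, hQ, hg, hjQ, hgQ⟩ := approx_ane hX hj hφ ε σ hε hσ
  refine ⟨Q, fun y => if h : y ∈ Q then ψ (g ⟨y, h⟩) else 1, hQ, hjQ, ?_, fun p' => ?_⟩
  · rw [continuousOn_iff_continuous_domRestrict]
    refine (hψ.comp hg).congr fun y => ?_
    simp [y.2]
  · simp only [hjQ p', dite_true]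
    obtain ⟨p, h3, h4⟩ := hgQ ⟨j p', hjQ p'⟩
    have h5 := hε' p _ h4
    have h6 := hσ' p p' h3
    have h7 := κ.dL_triangle (ψ (g ⟨j p', hjQ p'⟩)) (u p) (u p')
    linarith

theorem Nice.of_propC {Y : Type*} [TopologicalSpace Y] [TopologicalSpace.MetrizableSpace Y]
    {P : Type*} [TopologicalSpace P] {j : P → Y} (hj : IsInducing j) {u : P → G}
    {X : Type u} [TopologicalSpace X] (hX : PropC X)
    (φ : P → X) (hφ : Continuous φ) (ψ : X → G) (hψ : Continuous ψ) (hu : ∀ p, u p = ψ (φ p)) :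
    κ.Nice j u := by
  classical
  intro δ hδ
  let := TopologicalSpace.metrizableSpaceMetric Y
  obtain ⟨E, hE, hE0⟩ := κ.exists_sched hδ
  obtain ⟨V, hV, hVd, hVc⟩ := hX
    (fun i => range fun x₀ : X => {x : X | κ.dL (ψ x₀) (ψ x) < E (i + 1) / 2})
    (by
      rintro i _ ⟨x₀, rfl⟩
      have h1 : Continuous fun x : X => κ.dL (ψ x₀) (ψ x) :=
        κ.continuous_dL.comp (continuous_const.prodMk hψ)
      exact isOpen_lt h1 continuous_const)
    (by
      intro i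
      ext x
      simp only [mem_univ, iff_true]
      refine ⟨_, ⟨x, rfl⟩, ?_⟩
      show κ.dL (ψ x) (ψ x) < _
      rw [κ.dL_self]
      have := hE.pos (i + 1)
      positivity)
  -- the extension operator for open sets
  set ex : Set X → Set Y := fun v =>
    {y | Metric.infEDist y (j '' (φ ⁻¹' v)) < Metric.infEDist y (j '' (φ ⁻¹' v)ᶜ)} with hex
  have hexo : ∀ v, IsOpen (ex v) := fun v =>
    isOpen_lt Metric.continuous_infEDist Metric.continuous_infEDist
  have hexm : ∀ v : Set X, IsOpen v → ∀ p, φ p ∈ v → j p ∈ ex v := by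
    intro v hv p hp
    obtain ⟨O, hO, hOv⟩ := hj.isOpen_iff.1 (hv.preimage hφ)
    have h1 : Metric.infEDist (j p) (j '' (φ ⁻¹' v)) = 0 :=
      Metric.infEDist_zero_of_mem (mem_image_of_mem j hp)
    have h2 : 0 < Metric.infEDist (j p) (j '' (φ ⁻¹' v)ᶜ) := by
      rw [Metric.infEDist_pos_iff_notMem_closure]
      have h3 : closure (j '' (φ ⁻¹' v)ᶜ) ⊆ Oᶜ := by
        refine closure_minimal ?_ hO.isClosed_compl
        rintro _ ⟨q, hq, rfl⟩ hq'
        exact hq (by rw [← hOv]; exact hq')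
      intro h4
      have h5 : p ∈ j ⁻¹' O := by rw [hOv]; exact hp
      exact h3 h4 h5
    show Metric.infEDist (j p) (j '' (φ ⁻¹' v)) < Metric.infEDist (j p) (j '' (φ ⁻¹' v)ᶜ)
    rw [h1]
    exact h2
  have hexm' : ∀ v : Set X, ∀ p, j p ∈ ex v → φ p ∈ v := by
    intro v p hp
    by_contra hcon
    have h1 : Metric.infEDist (j p) (j '' (φ ⁻¹' v)) < Metric.infEDist (j p) (j '' (φ ⁻¹' v)ᶜ) :=
      hp
    have h2 : Metric.infEDist (j p) (j '' (φ ⁻¹' v)ᶜ) = 0 :=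
      Metric.infEDist_zero_of_mem (mem_image_of_mem j hcon)
    rw [h2] at h1
    exact absurd h1 not_lt_zero
  have hexd : ∀ v w : Set X, Disjoint v w → ∀ y, y ∈ ex v → y ∈ ex w → False := by
    intro v w hvw y hyv hyw
    have hvw' : Disjoint (φ ⁻¹' v) (φ ⁻¹' w) := hvw.preimage φ
    have h1 : Metric.infEDist y (j '' (φ ⁻¹' v)) < Metric.infEDist y (j '' (φ ⁻¹' v)ᶜ) := hyv
    have h2 : Metric.infEDist y (j '' (φ ⁻¹' w)) < Metric.infEDist y (j '' (φ ⁻¹' w)ᶜ) := hyw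
    have h3 : Metric.infEDist y (j '' (φ ⁻¹' v)ᶜ) ≤ Metric.infEDist y (j '' (φ ⁻¹' w)) :=
      Metric.infEDist_anti (image_mono (Set.disjoint_left.1 hvw'.symm))
    have h4 : Metric.infEDist y (j '' (φ ⁻¹' w)ᶜ) ≤ Metric.infEDist y (j '' (φ ⁻¹' v)) :=
      Metric.infEDist_anti (image_mono (Set.disjoint_left.1 hvw'))
    exact absurd (h1.trans_le (h3.trans (h2.le.trans h4))) (lt_irrefl _)
  set c : Set X → G := fun v => if h : v.Nonempty then ψ h.some else 1 with hc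
  set g : ℕ → Y → G := fun i y => if h : ∃ v ∈ V i, y ∈ ex v then c h.choose else 1 with hg
  have hgv : ∀ i, ∀ v ∈ V i, ∀ y ∈ ex v, g i y = c v := by
    intro i v hv y hy
    have h : ∃ v ∈ V i, y ∈ ex v := ⟨v, hv, hy⟩
    have h1 : g i y = c h.choose := dif_pos h
    rw [h1]
    by_contra hne
    have h2 : h.choose ≠ v := fun h3 => hne (by rw [h3])
    exact hexd _ _ (hVd i h.choose_spec.1 hv h2) y h.choose_spec.2 hy
  have hglue := κ.glue hE (fun i => ⋃ v ∈ V i, ex v)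
    (fun i => isOpen_biUnion fun v _ => hexo v) g (by
      intro i y hy
      simp only [mem_iUnion] at hy
      obtain ⟨v, hv, hyv⟩ := hy
      refine ContinuousAt.continuousWithinAt ?_
      refine (continuousAt_const (y := c v)).congr ?_
      filter_upwards [(hexo v).mem_nhds hyv] with z hz
      exact (hgv i v hv z hz).symm) j u (by
      intro i p hp
      simp only [mem_iUnion] at hp
      obtain ⟨v, hv, hpv⟩ := hp
      rw [hgv i v hv _ hpv]
      have hpv' := hexm' v p hpv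
      obtain ⟨_, ⟨x₀, rfl⟩, hvu⟩ := (hV i v hv).2
      have hne : v.Nonempty := ⟨_, hpv'⟩
      have h2 : c v = ψ hne.some := dif_pos hne
      rw [h2, hu]
      have h3 : κ.dL (ψ x₀) (ψ hne.some) < E (i + 1) / 2 := hvu hne.some_mem
      have h4 : κ.dL (ψ x₀) (ψ (φ p)) < E (i + 1) / 2 := hvu hpv'
      have h5 := κ.dL_triangle' (ψ hne.some) (ψ x₀) (ψ (φ p))
      linarith) (by
      intro p
      have h1 : φ p ∈ ⋃ i, ⋃₀ V i := by rw [hVc]; exact mem_univ _
      obtain ⟨i, hi⟩ := mem_iUnion.1 h1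
      obtain ⟨v, hv, hpv⟩ := hi
      exact ⟨i, mem_iUnion₂.2 ⟨v, hv, hexm v (hV i v hv).1 p hpv⟩⟩)
  obtain ⟨W, J, hW, hjW, hJ, hJu⟩ := hglue
  rw [hE0] at hJu
  exact ⟨W, J, hW, hjW, hJ, hJu⟩

/-- the main theorem for a group with a local contraction -/
theorem main {Y : Type*} [TopologicalSpace Y] [TopologicalSpace.MetrizableSpace Y] {A : Set Y}
    (hA : IsClosed A) {f : A → G} (hf : Continuous f)
    (h : ∀ η : ℕ → ℝ, (∀ k, 0 < η k) → ∃ (P : ℕ → Set A) (u : ∀ k, P k → G),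
      ⋃ k, P k = univ ∧ ∀ k, (∀ p : P k, κ.dL (u k p) (f p) < η k) ∧
        κ.Nice (fun p : P k => ((p : A) : Y)) (u k)) :
    ∃ (O : Set Y) (F : Y → G), IsOpen O ∧ A ⊆ O ∧ ContinuousOn F O ∧ ∀ a : A, F a = f a := by
  refine κ.ext_of_approx A hA f hf fun ε hε => ?_
  obtain ⟨E, hE, hE0⟩ := κ.exists_sched hε
  obtain ⟨P, u, hPc, hP⟩ := h (fun k => E (k + 1) / 2) (fun k => by
    have := hE.pos (k + 1)
    positivity)
  have h1 : ∀ k, ∃ (Q : Set Y) (g : Y → G), IsOpen Q ∧ (∀ p : P k, ((p : A) : Y) ∈ Q) ∧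
      ContinuousOn g Q ∧ ∀ a : A, (a : Y) ∈ Q → κ.dL (g a) (f a) < E (k + 1) := by
    intro k
    obtain ⟨Q, g, hQ, hPQ, hg, hgu⟩ := (hP k).2 (E (k + 1) / 2) (by
      have := hE.pos (k + 1)
      positivity)
    have hco : ContinuousOn (fun a : A => κ.dL (g a) (f a)) (Subtype.val ⁻¹' Q) :=
      κ.continuous_dL.comp_continuousOn
        ((hg.comp continuous_subtype_val.continuousOn (fun a ha => ha)).prodMk hf.continuousOn)
    have ho : IsOpen ((Subtype.val : A → Y) ⁻¹' Q ∩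
        (fun a : A => κ.dL (g a) (f a)) ⁻¹' (Iio (E (k + 1)))) :=
      hco.isOpen_inter_preimage (hQ.preimage continuous_subtype_val) isOpen_Iio
    obtain ⟨O, hO, hOe⟩ := isOpen_induced_iff.1 ho
    have hOi : ∀ a : A, (a : Y) ∈ O ↔ ((a : Y) ∈ Q ∧ κ.dL (g a) (f a) < E (k + 1)) := by
      intro a
      have h1 : a ∈ (Subtype.val : A → Y) ⁻¹' O ↔ (a : Y) ∈ O := Iff.rfl
      rw [← h1, hOe]
      rfl
    refine ⟨Q ∩ O, g, hQ.inter hO, fun p => ⟨hPQ p, (hOi p).2 ⟨hPQ p, ?_⟩⟩,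
      hg.mono inter_subset_left, fun a ha => ((hOi a).1 ha.2).2⟩
    have h2 := hgu p
    have h3 := (hP k).1 p
    have h4 := κ.dL_triangle (g ((p : A) : Y)) (u k p) (f p)
    linarith
  choose Q g hQ hPQ hg hgf using h1
  have hglue := κ.glue hE Q hQ g hg (Subtype.val : A → Y) f (fun k a ha => hgf k a ha) (by
    intro a
    have h2 : a ∈ ⋃ k, P k := by rw [hPc]; exact mem_univ _
    obtain ⟨k, hk⟩ := mem_iUnion.1 h2
    exact ⟨k, hPQ k ⟨a, hk⟩⟩)
  obtain ⟨W, J, hW, hAW, hJ, hJf⟩ := hglue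
  rw [hE0] at hJf
  exact ⟨W, J, hW, fun a ha => hAW ⟨a, ha⟩, hJ, hJf⟩

end LCon

end Pool.Agent.H662.LC
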