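import Pool.Agent.H662.LC.Lim

/-!
# The norm of a metrizable group and the local contraction of a locally contractible group
-/

set_option autoImplicit false
set_option linter.unusedSectionVars false

open Set Topology Filter Uniformity

namespace Pool.Agent.H662.LC

/-- some neighbourhood of `1` is contractible in `G` -/
def LocContr (G : Type*) [Group G] [TopologicalSpace G] : Prop :=
  ∃ U ∈ 𝓝 (1 : G), ∃ (H : ℝ × G → G) (g₀ : G), ContinuousOn H (Icc 0 1 ×ˢ U) ∧
    ∀ u ∈ U, H (0, u) = u ∧ H (1, u) = g₀

/-- the theorem of Birkhoff and Kakutani -/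
theorem exists_norm (G : Type*) [Group G] [TopologicalSpace G] [IsTopologicalGroup G]
    [TopologicalSpace.MetrizableSpace G] : ∃ N : G → ℝ, N 1 = 0 ∧ (∀ g, 0 ≤ N g) ∧
      (∀ g, N g⁻¹ = N g) ∧ (∀ g h, N (g * h) ≤ N g + N h) ∧
      (𝓝 (1 : G)).HasBasis (fun ε : ℝ => 0 < ε) (fun ε => {g | N g < ε}) := by
  have hcg : (𝓝 (1 : G)).IsCountablyGenerated := by
    have : FirstCountableTopology G := by
      let := TopologicalSpace.metrizableSpaceMetric G
      infer_instance
    infer_instance
  let u : UniformSpace G := IsTopologicalGroup.leftUniformSpace G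
  have : IsCountablyGenerated (𝓤 G) := by
    show (comap (fun p : G × G => p.1⁻¹ * p.2) (𝓝 1)).IsCountablyGenerated
    infer_instance
  let m : PseudoMetricSpace G := UniformSpace.pseudoMetricSpace G
  set N : G → ℝ := fun g => ⨆ h : G, min 1 (dist h (h * g)) with hN
  have hbdd : ∀ g, BddAbove (range fun h : G => min 1 (dist h (h * g))) := fun g =>
    ⟨1, by rintro _ ⟨h, rfl⟩; exact min_le_left _ _⟩
  have hle : ∀ g h, min 1 (dist h (h * g)) ≤ N g := fun g h => le_ciSup (hbdd g) h
  have hN0 : ∀ g, 0 ≤ N g := fun g => (le_min zero_le_one dist_nonneg).trans (hle g 1)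
  have hNle : ∀ g (C : ℝ), (∀ h, min 1 (dist h (h * g)) ≤ C) → N g ≤ C := fun g C h => ciSup_le h
  have hinv : ∀ g, N g⁻¹ ≤ N g := fun g => by
    refine hNle _ _ fun h => ?_
    have h1 := hle g (h * g⁻¹)
    rw [inv_mul_cancel_right, dist_comm] at h1
    exact h1
  refine ⟨N, ?_, hN0, fun g => ?_, fun g h => ?_, ?_⟩
  · refine le_antisymm (hNle _ _ fun h => ?_) (hN0 1)
    rw [mul_one, dist_self]
    exact min_le_right _ _
  · refine le_antisymm (hinv g) ?_
    have h1 := hinv g⁻¹
    rwa [inv_inv] at h1
  · refine hNle _ _ fun k => ?_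
    have h1 := hle g k
    have h2 := hle h (k * g)
    have h3 := dist_triangle k (k * g) (k * (g * h))
    rw [← mul_assoc] at h3 ⊢
    have h4 := hN0 g
    have h5 := hN0 h
    rcases min_le_iff.1 h1 with h6 | h6
    · exact (min_le_left _ _).trans (by linarith)
    rcases min_le_iff.1 h2 with h7 | h7
    · exact (min_le_left _ _).trans (by linarith)
    exact (min_le_right _ _).trans (by linarith)
  · refine ⟨fun s => ?_⟩
    constructor
    · intro hs
      obtain ⟨ε, hε, h1⟩ := Metric.mem_nhds_iff.1 hs
      refine ⟨min ε 1, lt_min hε one_pos, fun g hg => h1 ?_⟩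
      rw [Metric.mem_ball, dist_comm]
      have h2 := hle g 1
      rw [one_mul] at h2
      have h3 : min 1 (dist 1 g) < min ε 1 := h2.trans_lt hg
      rcases min_lt_iff.1 (h3.trans_le (min_le_right _ _)) with h4 | h4
      · exact absurd h4 (lt_irrefl _)
      · rw [min_eq_right h4.le] at h3
        exact h3.trans_le (min_le_left _ _)
    · rintro ⟨ε, hε, h1⟩
      refine mem_of_superset ?_ h1
      have h2 : {p : G × G | dist p.1 p.2 < ε / 2} ∈ 𝓤 G := Metric.dist_mem_uniformity (by positivity)
      have h3 : {p : G × G | dist p.1 p.2 < ε / 2} ∈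
        comap (fun p : G × G => p.1⁻¹ * p.2) (𝓝 (1 : G)) := h2
      obtain ⟨U, hU, hU'⟩ := mem_comap.1 h3
      refine mem_of_superset hU fun g hg => ?_
      show N g < ε
      refine lt_of_le_of_lt (hNle g (ε / 2) fun h => (min_le_right _ _).trans ?_) (by linarith)
      have h4 : ((h, h * g) : G × G) ∈ {p : G × G | dist p.1 p.2 < ε / 2} := hU' (by
        show h⁻¹ * (h * g) ∈ U
        rwa [inv_mul_cancel_left])
      exact le_of_lt h4

theorem exists_lcon {G : Type*} [Group G] [TopologicalSpace G] [IsTopologicalGroup G]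
    [TopologicalSpace.MetrizableSpace G] (hG : LocContr G) : Nonempty (LCon G) := by
  classical
  obtain ⟨N, hN1, hN0, hNi, hNm, hNb⟩ := exists_norm G
  obtain ⟨U, hU, H, g₀, hH, hHU⟩ := hG
  have h1U : (1 : G) ∈ U := mem_of_mem_nhds hU
  obtain ⟨R, hR, hRU⟩ := hNb.mem_iff.1 (interior_mem_nhds.2 hU)
  set K : ℝ → G → G := fun s g => (H (1 - s, 1))⁻¹ * H (1 - s, g) with hK
  have hK0 : ∀ g ∈ U, K 0 g = 1 := fun g hg => by
    simp only [hK, sub_zero]
    rw [(hHU 1 h1U).2, (hHU g hg).2, inv_mul_cancel]
  have hK1 : ∀ g ∈ U, K 1 g = g := fun g hg => by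
    simp only [hK, sub_self]
    rw [(hHU 1 h1U).1, (hHU g hg).1, inv_one, one_mul]
  set cl : ℝ → ℝ := fun t => max 0 (min 1 t) with hcl
  have hclm : ∀ t, cl t ∈ Icc (0 : ℝ) 1 := fun t =>
    ⟨le_max_left _ _, max_le zero_le_one (min_le_left _ _)⟩
  set c : ℝ → G → G := fun t g => if t ≤ 0 then 1 else if 1 ≤ t then g else K t g with hc
  have hcK : ∀ t, ∀ g ∈ U, c t g = K (cl t) g := by
    intro t g hg
    simp only [hc]
    split_ifs with h1 h2
    · have : cl t = 0 := max_eq_left ((min_le_right _ _).trans h1)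
      rw [this, hK0 g hg]
    · have : cl t = 1 := by
        simp only [hcl]
        rw [min_eq_left h2]
        exact max_eq_right zero_le_one
      rw [this, hK1 g hg]
    · have : cl t = t := by
        simp only [hcl]
        rw [min_eq_right (not_le.1 h2).le]
        exact max_eq_right (not_le.1 h1).le
      rw [this]
  have hcc : ∀ t, ∀ g ∈ interior U, ContinuousAt (fun p : ℝ × G => c p.1 p.2) (t, g) := by
    intro t g hg
    have hnb : (univ : Set ℝ) ×ˢ interior U ∈ 𝓝 (t, g) :=
      prod_mem_nhds univ_mem (isOpen_interior.mem_nhds hg)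
    have h1 : ContinuousAt (fun p : ℝ × G => K (cl p.1) p.2) (t, g) := by
      have hclc : Continuous fun p : ℝ × G => 1 - cl p.1 := by
        simp only [hcl]
        fun_prop
      have h2 : ContinuousWithinAt (fun p : ℝ × G => H (1 - cl p.1, p.2))
          ((univ : Set ℝ) ×ˢ interior U) (t, g) := by
        have h3 : ContinuousOn (fun p : ℝ × G => H (1 - cl p.1, p.2))
            ((univ : Set ℝ) ×ˢ interior U) := by
          refine hH.comp (hclc.prodMk continuous_snd).continuousOn ?_
          rintro ⟨s, k⟩ ⟨_, hk⟩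
          refine ⟨?_, interior_subset hk⟩
          have := hclm s
          exact ⟨by simp only; linarith [this.2], by simp only; linarith [this.1]⟩
        exact h3 _ ⟨mem_univ _, hg⟩
      have h4 : ContinuousWithinAt (fun p : ℝ × G => H (1 - cl p.1, 1))
          ((univ : Set ℝ) ×ˢ interior U) (t, g) := by
        have h3 : ContinuousOn (fun p : ℝ × G => H (1 - cl p.1, 1))
            ((univ : Set ℝ) ×ˢ interior U) := by
          refine hH.comp (hclc.prodMk continuous_const).continuousOn ?_
          rintro ⟨s, k⟩ ⟨_, hk⟩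
          refine ⟨?_, h1U⟩
          have := hclm s
          exact ⟨by simp only; linarith [this.2], by simp only; linarith [this.1]⟩
        exact h3 _ ⟨mem_univ _, hg⟩
      exact (h4.inv.mul h2).continuousAt hnb
    refine h1.congr ?_
    filter_upwards [hnb] with p hp
    exact (hcK p.1 p.2 (interior_subset hp.2)).symm
  refine ⟨{ N := N, c := c, R := R, R_pos := hR, N_one := hN1, N_nonneg := hN0, N_inv := hNi
            N_mul := hNm, nhds_basis := hNb, c_cont := fun t g hg => hcc t g (hRU hg)
            c_zero := fun t g ht => if_pos ht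
            c_one := fun t g ht => ?_
            modulus := ?_ }⟩
  · simp only [hc]
    rw [if_neg (by linarith), if_pos ht]
  · intro ε hε
    have hNc : ContinuousAt N 1 := by
      rw [ContinuousAt, hN1, Metric.tendsto_nhds]
      intro e he
      filter_upwards [hNb.mem_of_mem he] with g hg
      rw [Real.dist_eq, sub_zero, abs_of_nonneg (hN0 g)]
      exact hg
    have h1i : (1 : G) ∈ interior U := mem_interior_iff_mem_nhds.2 hU
    have hc1 : ∀ t, c t 1 = 1 := fun t => by
      rw [hcK t 1 h1U]
      exact inv_mul_cancel _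
    have h2 : ∀ᶠ g in 𝓝 (1 : G), ∀ t ∈ Icc (0 : ℝ) 1, N (c t g) < ε := by
      refine isCompact_Icc.eventually_forall_of_forall_eventually (fun t _ => ?_)
      have h3 : ContinuousAt (fun p : G × ℝ => c p.2 p.1) (1, t) :=
        (hcc t 1 h1i).comp_of_eq (continuous_swap.continuousAt (x := ((1 : G), t))) rfl
      have h4 : ContinuousAt (fun p : G × ℝ => N (c p.2 p.1)) (1, t) := by
        refine ContinuousAt.comp_of_eq (g := N) (y := 1) hNc h3 (hc1 t)
      refine h4.eventually_lt_const ?_
      show N (c t 1) < ε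
      rw [hc1, hN1]
      exact hε
    obtain ⟨δ, hδ, hδ'⟩ := hNb.mem_iff.1 h2
    refine ⟨min δ ε, lt_min hδ hε, fun g hg t => ?_⟩
    have h3 := hδ' (show N g < δ from hg.trans_le (min_le_left _ _))
    by_cases ht0 : t ≤ 0
    · have : c t g = 1 := if_pos ht0
      rw [this, hN1]
      exact hε
    · by_cases ht1 : 1 ≤ t
      · have : c t g = g := by
          simp only [hc]
          rw [if_neg ht0, if_pos ht1]
        rw [this]
        exact hg.trans_le (min_le_right _ _)
      · exact h3 t ⟨(not_le.1 ht0).le, (not_le.1 ht1).le⟩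

end Pool.Agent.H662.LC
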